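import Pool.Agent.MP_6bb8b9_an.H80.Decomp

/-!
Weak type (1,1) of the maximal singular integral from the weak `L^2` bound.
-/

open MeasureTheory Set Filter Topology Function
open scoped ENNReal NNReal

namespace Pool.Agent.MP_6bb8b9_an.H80

open Pool.Agent.MP_6bb8b9_an.H2

variable {n : ℕ} {𝕜 : Type} [RCLike 𝕜]

lemma measurableSet_trunc (x : Euc n) (ε : ℝ) : MeasurableSet {y : Euc n | ε < ‖y - x‖} :=
  (isOpen_lt continuous_const (by fun_prop)).measurableSet

lemma maxSing_eq {K : Euc n → Euc n → 𝕜} (hI : SpecInt K) {g : Euc n → 𝕜}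
    (hg : Integrable g volume) (x : Euc n) :
    maxSing K g x = ⨆ (ε : ℝ) (_ : 0 < ε), ‖Tr K g x ε‖ₑ := by
  unfold maxSing
  refine iSup_congr fun ε => iSup_congr fun hε => ?_
  rw [if_pos (hI.2 g hg x ε hε), Tr]

lemma maxSing_add_le {K : Euc n → Euc n → 𝕜} (hI : SpecInt K) {g₀ g : Euc n → 𝕜}
    (hg₀ : Integrable g₀ volume) (hg : Integrable g volume) (x : Euc n) :
    maxSing K g x ≤ maxSing K g₀ x + maxSing K (fun y => g y - g₀ y) x := by
  have hb : Integrable (fun y => g y - g₀ y) volume := hg.sub hg₀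
  rw [maxSing_eq hI hg, maxSing_eq hI hg₀, maxSing_eq hI hb]
  refine iSup₂_le fun ε hε => ?_
  have h : Tr K g x ε = Tr K g₀ x ε + Tr K (fun y => g y - g₀ y) x ε := by
    unfold Tr
    rw [← integral_add (hI.2 g₀ hg₀ x ε hε) (hI.2 _ hb x ε hε)]
    congr 1
    ext y
    ring
  rw [h]
  refine (enorm_add_le _ _).trans (add_le_add ?_ ?_)
  · exact le_iSup₂_of_le (f := fun (ε : ℝ) (_ : 0 < ε) => ‖Tr K g₀ x ε‖ₑ) ε hε le_rfl
  · exact le_iSup₂_of_le
      (f := fun (ε : ℝ) (_ : 0 < ε) => ‖Tr K (fun y => g y - g₀ y) x ε‖ₑ) ε hε le_rfl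

lemma enorm_setIntegral_mul_le {S : Set (Euc n)} (hS : MeasurableSet S) {φ b : Euc n → 𝕜} {M : ℝ}
    (h : ∀ y ∈ S, ‖φ y‖ ≤ M) :
    ‖∫ y in S, φ y * b y‖ₑ ≤ ENNReal.ofReal M * ∫⁻ y in S, ‖b y‖ₑ := by
  refine (enorm_integral_le_lintegral_enorm _).trans ?_
  rw [← lintegral_const_mul' _ _ ENNReal.ofReal_ne_top]
  refine setLIntegral_mono' hS fun y hy => ?_
  rw [enorm_mul]
  gcongr
  rw [← ofReal_norm]
  exact ENNReal.ofReal_le_ofReal (h y hy)

/-- The tail kernel attached to a ball. -/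
noncomputable def tail (δ : ℝ) (a : Euc n) (r : ℝ) (x : Euc n) : ℝ≥0∞ :=
  {y : Euc n | r ≤ ‖y - a‖}.indicator
    (fun y => ENNReal.ofReal (r ^ δ * ‖y - a‖ ^ (-(n : ℝ) - δ))) x

lemma measurableSet_far (a : Euc n) (r : ℝ) : MeasurableSet {y : Euc n | r ≤ ‖y - a‖} :=
  (isClosed_le continuous_const (by fun_prop)).measurableSet

lemma measurable_tail (δ : ℝ) (a : Euc n) (r : ℝ) : Measurable (tail δ a r) := by
  refine Measurable.indicator ?_ (measurableSet_far a r)
  refine ENNReal.measurable_ofReal.comp (Measurable.const_mul ?_ _)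
  exact Measurable.pow_const (by fun_prop) _

lemma lintegral_tail {δ : ℝ} (hA : SpecAnnuli n δ) :
    ∃ C : ℝ≥0∞, C ≠ ∞ ∧ ∀ (a : Euc n) (r : ℝ), 0 < r → ∫⁻ x, tail δ a r x ≤ C := by
  obtain ⟨C, hC⟩ := hA
  refine ⟨C * volume (Metric.ball (0 : Euc n) 1),
    ENNReal.mul_ne_top ENNReal.coe_ne_top measure_ball_lt_top.ne, fun a r hr => ?_⟩
  have h := hC (fun _ => 1) aemeasurable_const a r hr
  simp only [mul_one] at h
  unfold tail
  rw [lintegral_indicator (measurableSet_far a r)]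
  refine h.trans ?_
  gcongr
  refine iSup₂_le fun ρ hρ => ?_
  rw [setLIntegral_one, volume_ball_eq a hρ]
  exact ENNReal.div_le_of_le_mul' le_rfl

open Classical in
lemma piece_le (hn : 0 < n) {K : Euc n → Euc n → 𝕜} {c δ : ℝ} (hK : KB K c δ) (hI : SpecInt K)
    {b : Euc n → 𝕜} (hb : Integrable b volume) {a : Euc n} {l : ℝ} (hl : 0 < l)
    (h0 : ∫ y in cube a l, b y = 0) {x : Euc n} (hx : 3 * (Real.sqrt n * l) ≤ ‖x - a‖)
    {ε : ℝ} (hε : 0 < ε) :
    ‖∫ y in {y | ε < ‖y - x‖} ∩ cube a l, K x y * b y‖ₑ ≤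
      ENNReal.ofReal c * tail δ a (3 * (Real.sqrt n * l)) x * (∫⁻ y in cube a l, ‖b y‖ₑ) +
      if cube a l ⊆ Metric.ball x (2 * ε) then
        ENNReal.ofReal (c * ε ^ (-(n : ℝ))) * ∫⁻ y in cube a l, ‖b y‖ₑ else 0 := by
  have hsq : 0 < Real.sqrt n := Real.sqrt_pos.mpr (by exact_mod_cast hn)
  have hd : 0 < Real.sqrt n * l := by positivity
  have hc := hK.c_nonneg
  have ha := self_mem_cube a hl
  by_cases hsub : cube a l ⊆ {y | ε < ‖y - x‖}
  · refine le_trans ?_ le_self_add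
    rw [Set.inter_eq_right.mpr hsub]
    have h1 : ∫ y in cube a l, K x y * b y = ∫ y in cube a l, (K x y - K x a) * b y := by
      simp only [sub_mul]
      rw [integral_sub ((hI.2 b hb x ε hε).mono_set hsub) (hb.const_mul _).integrableOn,
        integral_const_mul, h0, mul_zero, sub_zero]
    rw [h1, tail, Set.indicator_of_mem (show x ∈ {y : Euc n | _ ≤ ‖y - a‖} from hx),
      ← ENNReal.ofReal_mul hc]
    refine enorm_setIntegral_mul_le (measurableSet_cube a l) fun y hy => ?_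
    have h2 := norm_sub_le_of_mem_cube hl.le ha hy
    have h3 := hK.reg a x y (by rw [norm_sub_rev a x]; linarith)
    rw [norm_sub_rev a x, norm_sub_rev (K x a)] at h3
    have h4 : ‖a - y‖ ^ δ ≤ (3 * (Real.sqrt n * l)) ^ δ :=
      Real.rpow_le_rpow (norm_nonneg _) (by linarith) hK.δ_pos.le
    calc ‖K x y - K x a‖ ≤ c * ‖a - y‖ ^ δ * ‖x - a‖ ^ (-(n : ℝ) - δ) := by
          linarith [norm_nonneg (K a x - K y x)]
      _ ≤ c * (3 * (Real.sqrt n * l)) ^ δ * ‖x - a‖ ^ (-(n : ℝ) - δ) := by gcongr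
      _ = _ := by ring
  · refine le_trans ?_ le_add_self
    obtain ⟨y₀, hy₀, hy₀'⟩ := Set.not_subset.mp hsub
    have h1 : ‖y₀ - x‖ ≤ ε := not_lt.mp hy₀'
    have h2 := norm_sub_le_of_mem_cube hl.le hy₀ ha
    have h3 : ‖x - a‖ ≤ ‖y₀ - x‖ + ‖y₀ - a‖ := by
      rw [norm_sub_rev y₀ x]
      exact norm_sub_le_norm_sub_add_norm_sub _ _ _
    have h4 : cube a l ⊆ Metric.ball x (2 * ε) := fun y hy => by
      rw [mem_ball_iff_norm]
      have h5 := norm_sub_le_of_mem_cube hl.le hy hy₀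
      have h6 := norm_sub_le_norm_sub_add_norm_sub y y₀ x
      linarith
    rw [if_pos h4]
    refine (enorm_setIntegral_mul_le ((measurableSet_trunc x ε).inter (measurableSet_cube a l))
      (M := c * ε ^ (-(n : ℝ))) fun y hy => ?_).trans ?_
    · have h5 : ε < ‖y - x‖ := hy.1
      have h6 : x ≠ y := fun h => by rw [h, sub_self, norm_zero] at h5; linarith
      refine (hK.size x y h6).trans ?_
      rw [norm_sub_rev]
      gcongr ?_ * ?_
      exact Real.rpow_le_rpow_of_nonpos hε h5.le (by simp)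
    · gcongr
      exact Set.inter_subset_right

lemma bad_le (hn : 0 < n) {K : Euc n → Euc n → 𝕜} {c δ : ℝ} (hK : KB K c δ) (hI : SpecInt K)
    {b : Euc n → 𝕜} (hb : Integrable b volume) {ι : Type} [Countable ι] {a : ι → Euc n}
    {l : ι → ℝ} (hl : ∀ i, 0 < l i) (hd : Pairwise (Disjoint on fun i => cube (a i) (l i)))
    (hout : ∀ x, x ∉ ⋃ i, cube (a i) (l i) → b x = 0)
    (h0 : ∀ i, ∫ y in cube (a i) (l i), b y = 0) {S : ℝ≥0∞}
    (hS : ∀ i, ∫⁻ y in cube (a i) (l i), ‖b y‖ₑ ≤ S * volume (cube (a i) (l i)))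
    {x : Euc n} (hx : ∀ i, 3 * (Real.sqrt n * l i) ≤ ‖x - a i‖) :
    maxSing K b x ≤ (∑' i, ENNReal.ofReal c * tail δ (a i) (3 * (Real.sqrt n * l i)) x *
        ∫⁻ y in cube (a i) (l i), ‖b y‖ₑ) +
      ENNReal.ofReal (c * 2 ^ n) * volume (Metric.ball (0 : Euc n) 1) * S := by
  classical
  rw [maxSing_eq hI hb]
  refine iSup₂_le fun ε hε => ?_
  have hc := hK.c_nonneg
  set A : Set (Euc n) := {y | ε < ‖y - x‖} with hA
  have hAm : MeasurableSet A := measurableSet_trunc x ε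
  have hint := hI.2 b hb x ε hε
  have h1 : Tr K b x ε = ∫ y in ⋃ i, A ∩ cube (a i) (l i), K x y * b y := by
    rw [← Set.inter_iUnion, Tr]
    refine setIntegral_eq_of_subset_of_forall_sdiff_eq_zero hAm Set.inter_subset_left
      fun y hy => ?_
    rw [hout y fun h => hy.2 ⟨hy.1, h⟩, mul_zero]
  have h2 := hasSum_integral_iUnion (s := fun i => A ∩ cube (a i) (l i))
    (f := fun y => K x y * b y) (μ := volume) (fun i => hAm.inter (measurableSet_cube _ _))
    (fun i j hij => (hd hij).mono Set.inter_subset_right Set.inter_subset_right)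
    (hint.mono_set (Set.iUnion_subset fun i => Set.inter_subset_left))
  rw [h1]
  refine (h2.enorm_le_of_bounded ENNReal.summable.hasSum fun i =>
    piece_le hn hK hI hb (hl i) (h0 i) (hx i) hε).trans ?_
  rw [ENNReal.tsum_add]
  refine add_le_add le_rfl ?_
  calc _ ≤ ∑' i, ENNReal.ofReal (c * ε ^ (-(n : ℝ))) * S *
        volume (cube (a i) (l i) ∩ Metric.ball x (2 * ε)) := by
        refine ENNReal.tsum_le_tsum fun i => ?_
        split_ifs with h
        · rw [Set.inter_eq_left.mpr h, mul_assoc]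
          gcongr
          exact hS i
        · exact zero_le
    _ = ENNReal.ofReal (c * ε ^ (-(n : ℝ))) * S *
        volume (⋃ i, cube (a i) (l i) ∩ Metric.ball x (2 * ε)) := by
        rw [ENNReal.tsum_mul_left, measure_iUnion
          (fun i j hij => (hd hij).mono Set.inter_subset_left Set.inter_subset_left)
          (fun i => (measurableSet_cube _ _).inter measurableSet_ball)]
    _ ≤ ENNReal.ofReal (c * ε ^ (-(n : ℝ))) * S * volume (Metric.ball x (2 * ε)) := by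
        gcongr
        exact Set.iUnion_subset fun i => Set.inter_subset_right
    _ = _ := by
        have e : c * 2 ^ n = c * ε ^ (-(n : ℝ)) * (2 * ε) ^ n := by
          rw [Real.rpow_neg hε.le, Real.rpow_natCast, mul_pow]
          field_simp
        rw [volume_ball_eq x (by positivity), e, ENNReal.ofReal_mul (p := c * ε ^ (-(n : ℝ)))
          (by positivity)]
        ring

theorem itemC (hn : 0 < n) {K : Euc n → Euc n → 𝕜} {c δ : ℝ} (hK : KB K c δ)
    (hA : SpecAnnuli n δ) (hI : SpecInt K) (hW : SpecWeak2 K) : SpecWeak11 K := by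
  obtain ⟨A, CW, hW⟩ := hW
  obtain ⟨CT, hCT, hT⟩ := lintegral_tail hA
  have hsq : 0 < Real.sqrt n := Real.sqrt_pos.mpr (by exact_mod_cast hn)
  set ω := volume (Metric.ball (0 : Euc n) 1) with hω
  have hωt : ω ≠ ∞ := measure_ball_lt_top.ne
  obtain ⟨D, hD⟩ : ∃ D : ℝ≥0, (D : ℝ≥0∞) = ENNReal.ofReal (c * 2 ^ n) * ω * (2 * 2 ^ n) :=
    ⟨_, ENNReal.coe_toNNReal (by finiteness)⟩
  obtain ⟨E, hE⟩ : ∃ E : ℝ≥0, (E : ℝ≥0∞) =
      CW + ENNReal.ofReal ((3 * Real.sqrt n) ^ n) * ω + ENNReal.ofReal c * CT * 2 :=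
    ⟨_, ENNReal.coe_toNNReal (by finiteness)⟩
  set Λ : ℝ≥0 := A * 2 ^ n + 1 + D with hΛ
  have hΛ0 : 0 < Λ := by positivity
  refine ⟨Λ * E, fun g hg hsupp t => ?_⟩
  rcases eq_or_ne t 0 with rfl | ht
  · simp
  obtain ⟨s, hs, rfl⟩ : ∃ s : ℝ≥0, 0 < s ∧ t = Λ * s :=
    ⟨t / Λ, div_pos (pos_iff_ne_zero.mpr ht) hΛ0, by field_simp⟩
  obtain ⟨ι, _, a, l, L, hl, hd, hlow, hup, hae⟩ := exists_cubes hn hg hs
  obtain ⟨g₀, hg₀, hg₀le, hout, hin, hzero⟩ := exists_good_part
    (fun i => measurableSet_cube (a i) (l i)) hd (fun i => (volume_cube_lt_top _ _).ne) hg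
  set I := ∫⁻ y, ‖g y‖ₑ with hIdef
  set b : Euc n → 𝕜 := fun y => g y - g₀ y with hb
  have hbi : Integrable b volume := hg.sub hg₀
  have hsumI : ∑' i, ∫⁻ y in cube (a i) (l i), ‖g y‖ₑ ≤ I := by
    rw [← lintegral_iUnion (fun i => measurableSet_cube _ _) hd]
    exact setLIntegral_le_lintegral _ _
  have hβ : ∀ i, ∫⁻ y in cube (a i) (l i), ‖b y‖ₑ ≤ 2 * ∫⁻ y in cube (a i) (l i), ‖g y‖ₑ := by
    intro i
    have hx := self_mem_cube (a i) (hl i).1
    have h1 : ∫⁻ y in cube (a i) (l i), ‖g₀ y‖ₑ ≤ ∫⁻ y in cube (a i) (l i), ‖g y‖ₑ := by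
      have h2 : volume (cube (a i) (l i)) ≠ 0 := (volume_cube_pos _ (hl i).1).ne'
      have h3 : volume (cube (a i) (l i)) ≠ ∞ := (volume_cube_lt_top _ _).ne
      calc _ ≤ ∫⁻ _ in cube (a i) (l i),
            (∫⁻ y in cube (a i) (l i), ‖g y‖ₑ) / volume (cube (a i) (l i)) :=
            setLIntegral_mono' (measurableSet_cube _ _) fun y hy =>
              (ENNReal.le_div_iff_mul_le (Or.inl h2) (Or.inl h3)).mpr (hin i y hy)
        _ = _ := by rw [setLIntegral_const, ENNReal.div_mul_cancel h2 h3]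
    calc _ ≤ ∫⁻ y in cube (a i) (l i), (‖g y‖ₑ + ‖g₀ y‖ₑ) := lintegral_mono fun y => enorm_sub_le
      _ = _ := lintegral_add_left' hg.1.enorm.restrict _
      _ ≤ _ := by rw [two_mul]; gcongr
  have hbound : ∀ᵐ x ∂volume, ‖g₀ x‖ₑ ≤ ((2 ^ n * s : ℝ≥0) : ℝ≥0∞) := by
    filter_upwards [hae] with x hx
    push_cast
    by_cases hxΩ : x ∈ ⋃ i, cube (a i) (l i)
    · obtain ⟨i, hi⟩ := mem_iUnion.mp hxΩ
      exact (ENNReal.mul_le_mul_iff_left (volume_cube_pos _ (hl i).1).ne'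
        (volume_cube_lt_top _ _).ne).mp ((hin i x hi).trans (hup i))
    · rw [hout x hxΩ]
      refine (hx hxΩ).trans (le_mul_of_one_le_left' ?_)
      exact one_le_pow₀ one_le_two
  have hsupp₀ : Bornology.IsBounded (Function.support g₀) := by
    obtain ⟨R, hR⟩ := hsupp.exists_norm_le
    refine isBounded_iff_forall_norm_le.mpr ⟨|R| + Real.sqrt n * |L|, fun x hx => ?_⟩
    by_cases hxΩ : x ∈ ⋃ i, cube (a i) (l i)
    · obtain ⟨i, hi⟩ := mem_iUnion.mp hxΩ
      obtain ⟨y, hy, hy'⟩ : ∃ y ∈ cube (a i) (l i), g y ≠ 0 := by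
        by_contra! h
        have h1 := hlow i
        rw [setLIntegral_congr_fun (measurableSet_cube _ _) (g := fun _ => 0)
          (fun y hy => by simp [h y hy])] at h1
        simp at h1
      have h1 := norm_sub_le_of_mem_cube (hl i).1.le hi hy
      have h2 := hR y hy'
      have h3 : Real.sqrt n * l i ≤ Real.sqrt n * |L| := by
        gcongr; exact (hl i).2.trans (le_abs_self L)
      have h4 := norm_le_norm_sub_add x y
      linarith [le_abs_self R]
    · have h1 := hR x (by rwa [Function.mem_support, hout x hxΩ] at hx)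
      have h2 : 0 ≤ Real.sqrt n * |L| := by positivity
      linarith [le_abs_self R]
  set F : Euc n → ℝ≥0∞ := fun x => ∑' i, ENNReal.ofReal c *
    tail δ (a i) (3 * (Real.sqrt n * l i)) x * ∫⁻ y in cube (a i) (l i), ‖b y‖ₑ with hF
  have hFi : ∀ i, Measurable fun x => ENNReal.ofReal c *
      tail δ (a i) (3 * (Real.sqrt n * l i)) x * ∫⁻ y in cube (a i) (l i), ‖b y‖ₑ :=
    fun i => ((measurable_tail _ _ _).const_mul _).mul_const _
  have hFm : Measurable F := Measurable.tsum hFi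
  set U₁ : Set (Euc n) := {x | ((A : ℝ≥0∞) * ((2 ^ n * s : ℝ≥0) : ℝ≥0∞)) < maxSing K g₀ x}
    with hU₁
  set U₂ : Set (Euc n) := ⋃ i, Metric.ball (a i) (3 * (Real.sqrt n * l i)) with hU₂
  set U₃ : Set (Euc n) := {x | (s : ℝ≥0∞) ≤ F x} with hU₃
  have hcover : {x | ((Λ * s : ℝ≥0) : ℝ≥0∞) < maxSing K g x} ⊆ U₁ ∪ U₂ ∪ U₃ := by
    intro x hx
    by_contra hcon
    simp only [Set.mem_union, not_or] at hcon
    obtain ⟨⟨h1, h2⟩, h3⟩ := hcon
    have e1 : maxSing K g₀ x ≤ A * ((2 ^ n * s : ℝ≥0) : ℝ≥0∞) := not_lt.mp h1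
    have e3 : F x ≤ s := (not_le.mp h3).le
    have e2 := bad_le hn hK hI hbi (fun i => (hl i).1) hd
      (fun y hy => by simp only [hb, hout y hy, sub_self]) hzero (S := 2 * (2 ^ n * s))
      (fun i => (hβ i).trans (by rw [mul_assoc]; gcongr; exact hup i)) (x := x)
      (fun i => by
        by_contra h
        exact h2 (mem_iUnion.mpr ⟨i, mem_ball_iff_norm.mpr (not_le.mp h)⟩))
    refine absurd hx (not_lt.mpr ((maxSing_add_le hI hg₀ hg x).trans ?_))
    refine (add_le_add e1 (e2.trans (add_le_add e3 le_rfl))).trans (le_of_eq ?_)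
    rw [hΛ]
    push_cast
    rw [hD]
    ring
  have m1 : s * volume U₁ ≤ CW * I := by
    have h1 := hW g₀ hg₀.1 hsupp₀ (2 ^ n * s) hbound
    have h2 : ∫⁻ x, ‖g₀ x‖ₑ ^ 2 ≤ ((2 ^ n * s : ℝ≥0) : ℝ≥0∞) * I := by
      calc _ ≤ ∫⁻ x, ((2 ^ n * s : ℝ≥0) : ℝ≥0∞) * ‖g₀ x‖ₑ :=
            lintegral_mono_ae (hbound.mono fun x hx => by rw [sq]; gcongr)
        _ = _ := lintegral_const_mul' _ _ ENNReal.coe_ne_top
        _ ≤ _ := by gcongr
    have h3 : ((2 ^ n * s : ℝ≥0) : ℝ≥0∞) * (((2 ^ n * s : ℝ≥0) : ℝ≥0∞) * volume U₁) ≤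
        ((2 ^ n * s : ℝ≥0) : ℝ≥0∞) * (CW * I) := by
      rw [← mul_assoc, ← sq, mul_left_comm]
      exact h1.trans (by gcongr)
    have h4 := (ENNReal.mul_le_mul_iff_right (by
      exact_mod_cast (show (2 ^ n * s : ℝ≥0) ≠ 0 by positivity)) ENNReal.coe_ne_top).mp h3
    refine le_trans ?_ h4
    gcongr
    exact le_mul_of_one_le_left' (one_le_pow₀ one_le_two)
  have m2 : s * volume U₂ ≤ ENNReal.ofReal ((3 * Real.sqrt n) ^ n) * ω * I := by
    calc s * volume U₂ ≤ s * ∑' i, volume (Metric.ball (a i) (3 * (Real.sqrt n * l i))) := by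
          gcongr; exact measure_iUnion_le _
      _ = ∑' i, ENNReal.ofReal ((3 * Real.sqrt n) ^ n) * ω * (s * volume (cube (a i) (l i))) := by
          rw [← ENNReal.tsum_mul_left]
          refine tsum_congr fun i => ?_
          have := (hl i).1
          rw [volume_ball_eq _ (by positivity), volume_cube _ this.le, ← mul_assoc 3, mul_pow,
            ENNReal.ofReal_mul (by positivity)]
          ring
      _ ≤ ∑' i, ENNReal.ofReal ((3 * Real.sqrt n) ^ n) * ω *
            ∫⁻ y in cube (a i) (l i), ‖g y‖ₑ :=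
          ENNReal.tsum_le_tsum fun i => by gcongr; exact (hlow i).le
      _ ≤ _ := by rw [ENNReal.tsum_mul_left]; gcongr
  have m3 : s * volume U₃ ≤ ENNReal.ofReal c * CT * 2 * I := by
    refine (mul_meas_ge_le_lintegral hFm s).trans ?_
    rw [hF, lintegral_tsum fun i => (hFi i).aemeasurable]
    calc _ ≤ ∑' i, ENNReal.ofReal c * CT * 2 * ∫⁻ y in cube (a i) (l i), ‖g y‖ₑ := by
          refine ENNReal.tsum_le_tsum fun i => ?_
          rw [lintegral_mul_const _ ((measurable_tail _ _ _).const_mul _),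
            lintegral_const_mul _ (measurable_tail _ _ _), mul_assoc _ 2]
          have := (hl i).1
          gcongr
          · exact hT _ _ (by positivity)
          · exact hβ i
      _ ≤ _ := by rw [ENNReal.tsum_mul_left]; gcongr
  calc ((Λ * s : ℝ≥0) : ℝ≥0∞) * volume {x | ((Λ * s : ℝ≥0) : ℝ≥0∞) < maxSing K g x}
      ≤ ((Λ * s : ℝ≥0) : ℝ≥0∞) * (volume U₁ + volume U₂ + volume U₃) := by
        gcongr
        exact (measure_mono hcover).trans ((measure_union_le _ _).trans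
          (add_le_add (measure_union_le _ _) le_rfl))
    _ = Λ * (s * volume U₁ + s * volume U₂ + s * volume U₃) := by push_cast; ring
    _ ≤ Λ * (CW * I + ENNReal.ofReal ((3 * Real.sqrt n) ^ n) * ω * I +
          ENNReal.ofReal c * CT * 2 * I) := by gcongr
    _ = _ := by push_cast; rw [hE]; ring

end Pool.Agent.MP_6bb8b9_an.H80
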