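import Pool.Agent.MP_6bb8b9_an.H2.Spec

/-!
The Calderon-Zygmund decomposition.
-/

open MeasureTheory Set Filter Topology Function
open scoped ENNReal NNReal

namespace Pool.Agent.MP_6bb8b9_an.H80

open Pool.Agent.MP_6bb8b9_an.H2

variable {n : ℕ} {𝕜 : Type} [RCLike 𝕜]

lemma volume_ball_eq (x : Euc n) {r : ℝ} (hr : 0 < r) :
    volume (Metric.ball x r) = ENNReal.ofReal (r ^ n) * volume (Metric.ball (0 : Euc n) 1) := by
  rw [Measure.addHaar_ball_of_pos _ x hr, finrank_euclideanSpace_fin]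

lemma volume_closedBall_eq (x : Euc n) {r : ℝ} (hr : 0 ≤ r) :
    volume (Metric.closedBall x r) =
      ENNReal.ofReal (r ^ n) * volume (Metric.ball (0 : Euc n) 1) := by
  rw [Measure.addHaar_closedBall _ x hr, finrank_euclideanSpace_fin]

lemma ae_le_of_dyadic (hn : 0 < n) {g : Euc n → 𝕜} (hg : Integrable g volume) {L : ℝ} (hL : 0 < L)
    (s : ℝ≥0∞) : ∀ᵐ x ∂volume,
      (∀ k, ∫⁻ y in dcube 0 L k (didx 0 L k x), ‖g y‖ₑ ≤
        s * volume (dcube (0 : Euc n) L k (didx 0 L k x))) → ‖g x‖ₑ ≤ s := by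
  have hsq : 0 < Real.sqrt n := Real.sqrt_pos.mpr (by exact_mod_cast hn)
  filter_upwards [(Besicovitch.vitaliFamily (volume : Measure (Euc n))).ae_tendsto_lintegral_enorm_sub_div_of_integrable
    hg] with x hx h
  have h1 := hx.comp (Besicovitch.tendsto_filterAt volume x)
  have h2 : Tendsto (fun k : ℕ => Real.sqrt n * (L / 2 ^ k)) atTop (𝓝[>] 0) := by
    refine tendsto_nhdsWithin_iff.mpr ⟨?_, Eventually.of_forall fun k => ?_⟩
    · have := ((tendsto_pow_atTop_atTop_of_one_lt (one_lt_two (α := ℝ))).const_div_atTop L).const_mul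
        (Real.sqrt n)
      simpa using this
    · exact mem_Ioi.mpr (by positivity)
  have h3 := h1.comp h2
  set C : ℝ≥0∞ := ENNReal.ofReal (Real.sqrt n ^ n) * volume (Metric.ball (0 : Euc n) 1) with hC
  have hCt : C ≠ ∞ := ENNReal.mul_ne_top ENNReal.ofReal_ne_top measure_ball_lt_top.ne
  have h4 := (ENNReal.Tendsto.const_mul h3 (Or.inr hCt)).const_add s
  rw [mul_zero, add_zero] at h4
  refine ge_of_tendsto' h4 fun k => ?_
  simp only [Function.comp]
  set Q := dcube (0 : Euc n) L k (didx 0 L k x) with hQ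
  set B := Metric.closedBall x (Real.sqrt n * (L / 2 ^ k)) with hB
  have hl : 0 < L / 2 ^ k := by positivity
  have hQ0 : volume Q ≠ 0 := (volume_cube_pos _ hl).ne'
  have hQt : volume Q ≠ ∞ := (volume_cube_lt_top _ _).ne
  have hBQ : volume B = C * volume Q := by
    rw [hB, volume_closedBall_eq x (by positivity), hQ, volume_dcube _ hL, hC, mul_pow,
      ENNReal.ofReal_mul (by positivity)]
    ring
  have hB0 : volume B ≠ 0 := (Metric.measure_closedBall_pos _ _ (by positivity)).ne'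
  have hBt : volume B ≠ ∞ := measure_closedBall_lt_top.ne
  have hsub : Q ⊆ B := fun y hy => by
    rw [hB, mem_closedBall_iff_norm]
    exact norm_sub_le_of_mem_dcube hL hy (mem_dcube_didx hL k x)
  have e1 : ‖g x‖ₑ * volume Q ≤ s * volume Q + ∫⁻ y in B, ‖g y - g x‖ₑ := by
    calc ‖g x‖ₑ * volume Q = ∫⁻ _ in Q, ‖g x‖ₑ := by rw [setLIntegral_const]
      _ ≤ ∫⁻ y in Q, (‖g y‖ₑ + ‖g y - g x‖ₑ) := lintegral_mono fun y => by
          have : g x = g y - (g y - g x) := by ring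
          conv_lhs => rw [this]
          exact enorm_sub_le
      _ = (∫⁻ y in Q, ‖g y‖ₑ) + ∫⁻ y in Q, ‖g y - g x‖ₑ :=
          lintegral_add_left' hg.1.enorm.restrict _
      _ ≤ _ := add_le_add (h k) (lintegral_mono_set hsub)
  rw [← ENNReal.mul_le_mul_iff_left hQ0 hQt, add_mul]
  refine e1.trans (add_le_add le_rfl (le_of_eq ?_))
  rw [mul_comm C, mul_assoc, ← hBQ, ENNReal.div_mul_cancel hB0 hBt]

theorem exists_cubes (hn : 0 < n) {g : Euc n → 𝕜} (hg : Integrable g volume) {s : ℝ≥0}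
    (hs : 0 < s) :
    ∃ (ι : Type) (_ : Countable ι) (a : ι → Euc n) (l : ι → ℝ) (L : ℝ),
      (∀ i, 0 < l i ∧ l i ≤ L) ∧ Pairwise (Disjoint on fun i => cube (a i) (l i)) ∧
      (∀ i, s * volume (cube (a i) (l i)) < ∫⁻ y in cube (a i) (l i), ‖g y‖ₑ) ∧
      (∀ i, ∫⁻ y in cube (a i) (l i), ‖g y‖ₑ ≤ 2 ^ n * s * volume (cube (a i) (l i))) ∧
      ∀ᵐ x ∂volume, x ∉ ⋃ i, cube (a i) (l i) → ‖g x‖ₑ ≤ s := by
  classical
  set I := ∫⁻ y, ‖g y‖ₑ with hI
  have hIt : I ≠ ∞ := hg.2.ne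
  have hs' : (0 : ℝ) < s := hs
  set L : ℝ := I.toReal / s + 1 with hLdef
  have hL1 : 1 ≤ L := by
    have : 0 ≤ I.toReal / s := by positivity
    linarith
  have hL : 0 < L := by linarith
  have hIL : I ≤ s * ENNReal.ofReal (L ^ n) := by
    rw [← ENNReal.ofReal_toReal hIt, ← ENNReal.ofReal_coe_nnreal,
      ← ENNReal.ofReal_mul hs'.le]
    refine ENNReal.ofReal_le_ofReal ?_
    have h1 : L ≤ L ^ n := le_self_pow₀ hL1 hn.ne'
    have h2 : (s : ℝ) * L = I.toReal + s := by rw [hLdef]; field_simp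
    nlinarith
  let Bad : ℕ → (Fin n → ℤ) → Prop := fun k m =>
    s * volume (dcube (0 : Euc n) L k m) < ∫⁻ y in dcube (0 : Euc n) L k m, ‖g y‖ₑ
  let P : Set (ℕ × (Fin n → ℤ)) := {p | Bad p.1 p.2 ∧
    ∀ j < p.1, ∀ m', dcube (0 : Euc n) L p.1 p.2 ⊆ dcube 0 L j m' → ¬ Bad j m'}
  refine ⟨P, inferInstance, fun p => dcorner 0 L p.1.1 p.1.2, fun p => L / 2 ^ p.1.1, L,
    fun p => ⟨by positivity, div_le_self hL.le (one_le_pow₀ one_le_two)⟩, ?_, fun p => p.2.1,
    ?_, ?_⟩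
  · rintro ⟨⟨k, m⟩, hp⟩ ⟨⟨k', m'⟩, hp'⟩ hne
    simp only [Function.onFun]
    rw [Set.disjoint_left]
    intro x hx hx'
    rcases lt_trichotomy k k' with h | h | h
    · exact hp'.2 k h m (dcube_subset_of_mem hL h.le hx hx') hp.1
    · subst h
      apply hne
      have : m = m' := ((mem_dcube_iff hL).1 hx).symm.trans ((mem_dcube_iff hL).1 hx')
      subst this
      rfl
    · exact hp.2 k' h m' (dcube_subset_of_mem hL h.le hx' hx) hp'.1
  · rintro ⟨⟨k, m⟩, hp⟩
    simp only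
    rcases k with _ | j
    · exfalso
      refine absurd hp.1 (not_lt.mpr ?_)
      rw [volume_dcube _ hL, pow_zero, div_one]
      exact (setLIntegral_le_lintegral _ _).trans hIL
    · have hx : dcorner (0 : Euc n) L (j + 1) m ∈ dcube 0 L (j + 1) m :=
        self_mem_cube _ (by positivity)
      have hsub := dcube_subset_of_mem hL (Nat.le_succ j) (mem_dcube_didx hL j _) hx
      have h1 := not_lt.mp (hp.2 j (Nat.lt_succ_self j) _ hsub)
      refine (lintegral_mono_set hsub).trans (h1.trans (le_of_eq ?_))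
      rw [volume_dcube _ hL, volume_cube _ (by positivity)]
      have : (L / 2 ^ j) ^ n = 2 ^ n * (L / 2 ^ (j + 1)) ^ n := by
        rw [← mul_pow]; congr 1; field_simp; ring
      rw [this, ENNReal.ofReal_mul (by positivity), ENNReal.ofReal_pow zero_le_two,
        ENNReal.ofReal_ofNat]
      ring
  · filter_upwards [ae_le_of_dyadic hn hg hL s] with x hx hxΩ
    refine hx fun k => ?_
    by_contra hk
    have hex : ∃ k, Bad k (didx 0 L k x) := ⟨k, not_le.mp hk⟩
    refine hxΩ (mem_iUnion.mpr ⟨⟨(Nat.find hex, didx 0 L (Nat.find hex) x), Nat.find_spec hex,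
      fun j hj m' hm' => ?_⟩, mem_dcube_didx hL _ x⟩)
    have : didx 0 L j x = m' := (mem_dcube_iff hL).1 (hm' (mem_dcube_didx hL _ x))
    rw [← this]
    exact Nat.find_min hex hj

theorem exists_good_part {ι : Type} [Countable ι] {Q : ι → Set (Euc n)}
    (hm : ∀ i, MeasurableSet (Q i)) (hd : Pairwise (Disjoint on Q))
    (ht : ∀ i, volume (Q i) ≠ ∞)
    {g : Euc n → 𝕜} (hg : Integrable g volume) :
    ∃ g₀ : Euc n → 𝕜, Integrable g₀ volume ∧ ∫⁻ y, ‖g₀ y‖ₑ ≤ ∫⁻ y, ‖g y‖ₑ ∧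
      (∀ x, x ∉ ⋃ i, Q i → g₀ x = g x) ∧
      (∀ i, ∀ x ∈ Q i, ‖g₀ x‖ₑ * volume (Q i) ≤ ∫⁻ y in Q i, ‖g y‖ₑ) ∧
      (∀ i, ∫ y in Q i, (g y - g₀ y) = 0) := by
  classical
  let m : ι → 𝕜 := fun i => ⨍ y in Q i, g y
  let g₀ : Euc n → 𝕜 := fun x => if h : ∃ i, x ∈ Q i then m h.choose else g x
  have hin : ∀ i, ∀ x ∈ Q i, g₀ x = m i := by
    intro i x hx
    have h : ∃ i, x ∈ Q i := ⟨i, hx⟩
    have h1 : h.choose = i := by
      by_contra hne
      exact Set.disjoint_left.mp (hd hne) h.choose_spec hx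
    simp only [g₀, dif_pos h, h1]
  have hout : ∀ x, x ∉ ⋃ i, Q i → g₀ x = g x := by
    intro x hx
    have h : ¬ ∃ i, x ∈ Q i := by simpa using hx
    simp only [g₀, dif_neg h]
  have hΩ : MeasurableSet (⋃ i, Q i) := MeasurableSet.iUnion hm
  have hint : ∀ i, ∫ _ in Q i, m i = ∫ y in Q i, g y := fun i => by
    rw [setIntegral_const]
    exact measure_smul_setAverage _ (ht i)
  have hmi : ∀ i, ‖m i‖ₑ * volume (Q i) ≤ ∫⁻ y in Q i, ‖g y‖ₑ := by
    intro i
    refine le_trans (le_of_eq ?_) (enorm_integral_le_lintegral_enorm _)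
    rw [← hint i, setIntegral_const, enorm_smul, mul_comm, Measure.real,
      Real.enorm_eq_ofReal ENNReal.toReal_nonneg, ENNReal.ofReal_toReal (ht i)]
  have hmeas : AEStronglyMeasurable g₀ volume := by
    rw [← Measure.restrict_univ (μ := volume), ← Set.union_compl_self (⋃ i, Q i),
      aestronglyMeasurable_union_iff, aestronglyMeasurable_iUnion_iff]
    refine ⟨fun i => ?_, ?_⟩
    · exact aestronglyMeasurable_const.congr
        (ae_restrict_of_forall_mem (hm i) fun x hx => (hin i x hx).symm)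
    · exact hg.1.restrict.congr
        (ae_restrict_of_forall_mem hΩ.compl fun x hx => (hout x hx).symm)
  have hle : ∫⁻ y, ‖g₀ y‖ₑ ≤ ∫⁻ y, ‖g y‖ₑ := by
    rw [← lintegral_add_compl _ hΩ, ← lintegral_add_compl (fun y => ‖g y‖ₑ) hΩ,
      lintegral_iUnion hm hd, lintegral_iUnion hm hd]
    refine add_le_add (ENNReal.tsum_le_tsum fun i => ?_) (le_of_eq ?_)
    · rw [setLIntegral_congr_fun (hm i) (fun x hx => by rw [hin i x hx]), setLIntegral_const]
      exact hmi i
    · exact setLIntegral_congr_fun hΩ.compl fun x hx => by rw [hout x hx]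
  have hint₀ : Integrable g₀ volume := ⟨hmeas, hle.trans_lt hg.2⟩
  refine ⟨g₀, hint₀, hle, hout, fun i x hx => by rw [hin i x hx]; exact hmi i, fun i => ?_⟩
  rw [integral_sub hg.integrableOn hint₀.integrableOn,
    setIntegral_congr_fun (hm i) (fun x hx => hin i x hx), hint i, sub_self]

end Pool.Agent.MP_6bb8b9_an.H80
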